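import Pool.Agent.BCS.Stmts

/-!
The curves `t = const` are admissible and have length `∫ e^{φ+αχ}`.
-/

set_option autoImplicit false

noncomputable section

open scoped ContDiff Topology ComplexConjugate
open Set MeasureTheory

namespace Pool.Agent.BCS.H24

open Pool.Agent.SecondKind (Coord pd inv christoffel ricci)
open Pool.Agent.RLim.H58 (dg)

variable {m : ℕ}

/-- the curve `t = const` -/
def gam (t : Fin m → ℝ) (θ : ℝ) : Fin (m + 2) → ℝ :=
  Fin.cons (Real.cos θ) (Fin.cons (Real.sin θ) t)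

theorem gam_zero (t : Fin m → ℝ) (θ : ℝ) : gam t θ 0 = Real.cos θ := rfl

theorem gam_one (t : Fin m → ℝ) (θ : ℝ) : gam t θ 1 = Real.sin θ := rfl

theorem gam_succ (t : Fin m → ℝ) (θ : ℝ) (i : Fin m) : gam t θ i.succ.succ = t i := rfl

theorem pr_gam (t : Fin m → ℝ) (θ : ℝ) : pr (gam t θ) = cp θ := by
  apply Complex.ext
  · rw [cp, Complex.exp_ofReal_mul_I_re]
    rfl
  · rw [cp, Complex.exp_ofReal_mul_I_im]
    rfl

theorem tl_gam (t : Fin m → ℝ) (θ : ℝ) : tl (gam t θ) = t := rfl

theorem adm_gam (t : Fin m → ℝ) : IsAdm (gam t) where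
  smooth := by
    rw [contDiff_pi]
    intro i
    refine Fin.cases ?_ (fun j => ?_) i
    · exact Real.contDiff_cos
    · refine Fin.cases ?_ (fun k => ?_) j
      · exact Real.contDiff_sin
      · exact contDiff_const
  closed := by
    intro θ
    unfold gam
    rw [Real.cos_add_two_pi, Real.sin_add_two_pi]
  onY := fun θ => Real.cos_sq_add_sin_sq θ
  winds := ⟨fun θ => θ, 1, continuous_id, one_ne_zero, fun θ => ⟨rfl, rfl, by push_cast; ring⟩⟩

theorem sum_dg {n : ℕ} (w : Fin n → (Fin n → ℝ) → ℝ) (y d : Fin n → ℝ) :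
    ∑ i, ∑ j, dg w y i j * d i * d j = ∑ i, Real.exp (2 * w i y) * d i ^ 2 := by
  refine Finset.sum_congr rfl fun i _ => ?_
  rw [Finset.sum_eq_single i]
  · simp only [dg, if_true]
    ring
  · intro j _ hj
    simp only [dg, if_neg (Ne.symm hj)]
    ring
  · intro h
    exact absurd (Finset.mem_univ i) h

theorem len_ : LenStmt := by
  intro m φ f χ α β t
  refine ⟨gam t, adm_gam t, fun θ => ⟨pr_gam t θ, tl_gam t θ⟩, ?_⟩
  unfold len cI
  refine intervalIntegral.integral_congr fun θ _ => ?_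
  have e0 : deriv (fun s => gam t s 0) θ = -Real.sin θ := by
    have : (fun s => gam t s 0) = Real.cos := rfl
    rw [this, Real.deriv_cos]
  have e1 : deriv (fun s => gam t s (Fin.succ 0)) θ = Real.cos θ := by
    have : (fun s => gam t s (Fin.succ 0)) = Real.sin := rfl
    rw [this, Real.deriv_sin]
  have e2 : ∀ i : Fin m, deriv (fun s => gam t s i.succ.succ) θ = 0 := by
    intro i
    have : (fun s => gam t s i.succ.succ) = fun _ => t i := rfl
    rw [this, deriv_const]
  have h := sum_dg (uu φ f χ α β) (gam t θ) (fun i => deriv (fun s => gam t s i) θ)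
  simp only at h ⊢
  rw [h, Fin.sum_univ_succ, Fin.sum_univ_succ, e0, e1, Finset.sum_eq_zero]
  · have h0 : uu φ f χ α β 0 (gam t θ) = φ (cp θ) + α * χ (cp θ) t := by
      rw [← pr_gam t θ]
      rfl
    have h1 : uu φ f χ α β (Fin.succ 0) (gam t θ) = φ (cp θ) + α * χ (cp θ) t := by
      rw [← pr_gam t θ]
      rfl
    rw [h0, h1, add_zero]
    have h2 : Real.exp (2 * (φ (cp θ) + α * χ (cp θ) t)) * (-Real.sin θ) ^ 2
        + Real.exp (2 * (φ (cp θ) + α * χ (cp θ) t)) * Real.cos θ ^ 2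
        = Real.exp (φ (cp θ) + α * χ (cp θ) t) ^ 2 := by
      have h3 := Real.sin_sq_add_cos_sq θ
      have h4 : Real.exp (2 * (φ (cp θ) + α * χ (cp θ) t))
          = Real.exp (φ (cp θ) + α * χ (cp θ) t) ^ 2 := by
        rw [two_mul, Real.exp_add, sq]
      rw [h4, neg_sq, ← mul_add, h3, mul_one]
    rw [h2, Real.sqrt_sq (Real.exp_pos _).le]
  · intro i _
    rw [e2]
    ring

end Pool.Agent.BCS.H24
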